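import Pool.Agent.N718.LB.Stm

/-!
Project LB (helper718), part SIGN (helper27): positive vectors in the plane.
-/

set_option autoImplicit false

namespace Pool.Agent.N27.LB

open Pool.Agent.N718.LB

theorem pos_vec (a b c : ℝ) (ha : a ≠ 0) (hb : b ≠ 0) (hc : c ≠ 0) (h1 : ¬ (0 < a ∧ 0 < b ∧ 0 < c))
    (h2 : ¬ (a < 0 ∧ b < 0 ∧ c < 0)) :
    ∃ x y z : ℝ, 0 < x ∧ 0 < y ∧ 0 < z ∧ a * x + b * y + c * z = 0 := by
  rcases lt_or_gt_of_ne ha with ha | ha <;> rcases lt_or_gt_of_ne hb with hb | hb <;>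
    rcases lt_or_gt_of_ne hc with hc | hc
  · exact absurd ⟨ha, hb, hc⟩ h2
  · exact ⟨c, c, -a - b, hc, hc, by linarith, by ring⟩
  · exact ⟨b, -a - c, b, hb, by linarith, hb, by ring⟩
  · exact ⟨b + c, -a, -a, by linarith, by linarith, by linarith, by ring⟩
  · exact ⟨-b - c, a, a, by linarith, by linarith, by linarith, by ring⟩
  · exact ⟨-b, a + c, -b, by linarith, by linarith, by linarith, by ring⟩
  · exact ⟨-c, -c, a + b, by linarith, by linarith, by linarith, by ring⟩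
  · exact absurd ⟨ha, hb, hc⟩ h1

theorem sign_ : S_SIGN := by
  intro v w h0 h1 h2
  have ha0 : (cr v w 0 : ℤ) = v 1 * w 2 - v 2 * w 1 := rfl
  have ha1 : (cr v w 1 : ℤ) = v 2 * w 0 - v 0 * w 2 := rfl
  have ha2 : (cr v w 2 : ℤ) = v 0 * w 1 - v 1 * w 0 := rfl
  have hne : ∀ i, ((cr v w i : ℤ) : ℝ) ≠ 0 := fun i => by exact_mod_cast h0 i
  obtain ⟨x0, x1, x2, hx0, hx1, hx2, hx⟩ := pos_vec (cr v w 0 : ℤ) (cr v w 1 : ℤ) (cr v w 2 : ℤ)
    (hne 0) (hne 1) (hne 2)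
    (fun h => h1 fun i => by
      fin_cases i
      · exact_mod_cast h.1
      · exact_mod_cast h.2.1
      · exact_mod_cast h.2.2)
    (fun h => h2 fun i => by
      fin_cases i
      · exact_mod_cast h.1
      · exact_mod_cast h.2.1
      · exact_mod_cast h.2.2)
  have hn2 := hne 2
  rw [ha0, ha1, ha2] at hx
  rw [ha2] at hn2
  push_cast at hx hn2
  obtain ⟨l, hl⟩ : ∃ l : ℝ, l = (x0 * w 1 - x1 * w 0) / ((v 0 : ℝ) * w 1 - v 1 * w 0) := ⟨_, rfl⟩
  obtain ⟨m, hm⟩ : ∃ m : ℝ, m = (v 0 * x1 - v 1 * x0) / ((v 0 : ℝ) * w 1 - v 1 * w 0) := ⟨_, rfl⟩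
  have hl' : l * ((v 0 : ℝ) * w 1 - v 1 * w 0) = x0 * w 1 - x1 * w 0 := by
    rw [hl, div_mul_cancel₀ _ hn2]
  have hm' : m * ((v 0 : ℝ) * w 1 - v 1 * w 0) = v 0 * x1 - v 1 * x0 := by
    rw [hm, div_mul_cancel₀ _ hn2]
  have e0 : l * v 0 + m * w 0 = x0 := by
    apply mul_right_cancel₀ hn2
    linear_combination (v 0 : ℝ) * hl' + (w 0 : ℝ) * hm'
  have e1 : l * v 1 + m * w 1 = x1 := by
    apply mul_right_cancel₀ hn2
    linear_combination (v 1 : ℝ) * hl' + (w 1 : ℝ) * hm'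
  have e2 : l * v 2 + m * w 2 = x2 := by
    apply mul_right_cancel₀ hn2
    linear_combination (v 2 : ℝ) * hl' + (w 2 : ℝ) * hm' - hx
  have hX : ∀ i, 0 < l * v i + m * w i := by
    intro i
    fin_cases i
    · exact lt_of_lt_of_eq hx0 e0.symm
    · exact lt_of_lt_of_eq hx1 e1.symm
    · exact lt_of_lt_of_eq hx2 e2.symm
  rcases lt_trichotomy l 0 with hl0 | hl0 | hl0
  · refine ⟨-1, m / l, Or.inr rfl, fun i => ?_⟩
    have h3 : (((-1 : ℤ)) : ℝ) * (v i + w i * (m / l)) = (l * v i + m * w i) / (-l) := by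
      push_cast
      have := hl0.ne
      field_simp
    rw [h3]
    exact div_pos (hX i) (by linarith)
  · -- `l = 0`
    have hX' : ∀ i, 0 < m * w i := by
      intro i
      have := hX i
      rwa [hl0, zero_mul, zero_add] at this
    obtain ⟨S, hS⟩ : ∃ S : ℝ, S = 1 + ∑ i, |(v i : ℝ)| / (m * w i) := ⟨_, rfl⟩
    have hS0 : 0 < S := by
      rw [hS]
      have : 0 ≤ ∑ i, |(v i : ℝ)| / (m * w i) :=
        Finset.sum_nonneg fun i _ => div_nonneg (abs_nonneg _) (hX' i).le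
      linarith
    refine ⟨1, m * S, Or.inl rfl, fun i => ?_⟩
    have h3 : |(v i : ℝ)| / (m * w i) < S := by
      rw [hS]
      have := Finset.single_le_sum (f := fun i => |(v i : ℝ)| / (m * w i))
        (fun i _ => div_nonneg (abs_nonneg _) (hX' i).le) (Finset.mem_univ i)
      linarith
    rw [div_lt_iff₀ (hX' i)] at h3
    have h4 := neg_abs_le (v i : ℝ)
    push_cast
    nlinarith
  · refine ⟨1, m / l, Or.inl rfl, fun i => ?_⟩
    have h3 : (((1 : ℤ)) : ℝ) * (v i + w i * (m / l)) = (l * v i + m * w i) / l := by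
      push_cast
      have := hl0.ne'
      field_simp
    rw [h3]
    exact div_pos (hX i) hl0

end Pool.Agent.N27.LB
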